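import Pool.Agent.Helper17.DT.Def
import Pool.Agent.Helper54.DT.MC

/-!
# Part SC of the swarm DT: scaling a pair of curves by a transcendental element
-/

set_option autoImplicit false
set_option linter.unusedSectionVars false

open Polynomial Finset DirectSum

namespace Pool.Agent.Helper60.DT.SC

open Pool.Agent.Helper766_CF Pool.Agent.Helper766_CG Pool.Agent.Helper766_CH
open Pool.Agent.Helper58.CS Pool.Agent.Helper58.OP Pool.Agent.Helper58.SH Pool.Agent.Helper58.BG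
open Pool.Agent.Helper58.LC Pool.Agent.Helper58.NS Pool.Agent.Helper17.DT

variable {R : Type} [CommRing R] [Algebra ℂ R] {𝒜 : ℕ → Submodule ℂ R} [GradedAlgebra 𝒜]
  {br : R →ₗ[ℂ] R →ₗ[ℂ] R} {k : Type} [Field k] [Algebra ℂ k]

/-- Homogeneous components of the entries of a list. -/
theorem homl (𝒜 : ℕ → Submodule ℂ R) [GradedAlgebra 𝒜] (L : List (R × k)) :
    ∃ L' : List (ℕ × R × k), (∀ q ∈ L', q.2.1 ∈ 𝒜 q.1) ∧ ∀ φ : R →ₗ[ℂ] k,
      (L.map fun q => q.2 * φ q.1).sum = (L'.map fun q => q.2.2 * φ q.2.1).sum := by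
  have key : ∀ (h : R) (p : k), ∃ L' : List (ℕ × R × k), (∀ q ∈ L', q.2.1 ∈ 𝒜 q.1) ∧
      ∀ φ : R →ₗ[ℂ] k, p * φ h = (L'.map fun q => q.2.2 * φ q.2.1).sum := by
    intro h p
    refine hom_induction 𝒜 (P := fun h => ∃ L' : List (ℕ × R × k), (∀ q ∈ L', q.2.1 ∈ 𝒜 q.1) ∧
      ∀ φ : R →ₗ[ℂ] k, p * φ h = (L'.map fun q => q.2.2 * φ q.2.1).sum) h ?_ ?_ ?_
    · exact ⟨[], by simp, by simp⟩
    · intro d a ha
      exact ⟨[(d, a, p)], by simpa using ha, by simp⟩
    · rintro a b ⟨La, h1, h2⟩ ⟨Lb, h3, h4⟩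
      refine ⟨La ++ Lb, ?_, fun φ => ?_⟩
      · intro q hq
        rcases List.mem_append.1 hq with hq | hq
        · exact h1 q hq
        · exact h3 q hq
      · rw [map_add, mul_add, h2, h4, List.map_append, List.sum_append]
  induction L with
  | nil => exact ⟨[], by simp, by simp⟩
  | cons q L ih =>
    obtain ⟨L1, h1, h2⟩ := ih
    obtain ⟨L2, h3, h4⟩ := key q.1 q.2
    refine ⟨L2 ++ L1, ?_, fun φ => ?_⟩
    · intro q hq
      rcases List.mem_append.1 hq with hq | hq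
      · exact h3 q hq
      · exact h1 q hq
    · rw [List.map_cons, List.sum_cons, h2, h4, List.map_append, List.sum_append]

/-- The curve scaled by `lam`. -/
noncomputable def sc (𝒜 : ℕ → Submodule ℂ R) [GradedAlgebra 𝒜] {K : Type} [Field K] [Algebra ℂ K]
    (lam : K) (g : R →ₐ[ℂ] K[X]) : R →ₐ[ℂ] K[X] :=
  ((Polynomial.aeval (Polynomial.C lam : K[X])).restrictScalars ℂ).comp
    ((Polynomial.mapAlgHom g).comp (gr 𝒜))

theorem sc_mem {K : Type} [Field K] [Algebra ℂ K] (lam : K) (g : R →ₐ[ℂ] K[X]) {d : ℕ} {a : R}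
    (ha : a ∈ 𝒜 d) : sc 𝒜 lam g a = g a * Polynomial.C (lam ^ d) := by
  change Polynomial.aeval (Polynomial.C lam : K[X]) (Polynomial.map _ (gr 𝒜 a)) = _
  rw [gr_of_mem 𝒜 ha, Polynomial.map_mul, Polynomial.map_C, Polynomial.map_pow, Polynomial.map_X,
    map_mul, map_pow, aeval_X, aeval_C, ← Polynomial.C_pow]
  rfl

theorem coeff_sc_mem {K : Type} [Field K] [Algebra ℂ K] (lam : K) (g : R →ₐ[ℂ] K[X]) {d : ℕ}
    {a : R} (ha : a ∈ 𝒜 d) (i : ℕ) : (sc 𝒜 lam g a).coeff i = lam ^ d * (g a).coeff i := by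
  rw [sc_mem lam g ha, Polynomial.coeff_mul_C, mul_comm]

theorem sc_curve {K : Type} [Field K] [Algebra ℂ K] {lam : K} (hl : lam ≠ 0) {g : R →ₐ[ℂ] K[X]}
    (hg : IsCurve 𝒜 K 1 g) : IsCurve 𝒜 K 1 (sc 𝒜 lam g) := by
  refine ⟨fun d a ha => ?_, fun t => ?_, ?_⟩
  · rw [sc_mem lam g ha]
    exact (Polynomial.natDegree_mul_C_le _ _).trans (hg.deg d a ha)
  · obtain ⟨d, hd, a, ha, hne⟩ := hg.off t
    refine ⟨d, hd, a, ha, ?_⟩
    rw [sc_mem lam g ha, eval_mul, eval_C]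
    exact mul_ne_zero hne (pow_ne_zero _ hl)
  · obtain ⟨d, hd, a, ha, hne⟩ := hg.top
    refine ⟨d, hd, a, ha, ?_⟩
    rw [coeff_sc_mem lam g ha]
    exact mul_ne_zero (pow_ne_zero _ hl) hne

/-- The bracket of a constant is zero. -/
theorem br_const (C : Core 𝒜 br) {a : R} (ha : a ∈ 𝒜 0) (b : R) : br a b = 0 := by
  obtain ⟨c, rfl⟩ := C.const a ha
  rw [C.poisson.skew]
  have h := (adD C.poisson b).map_algebraMap c
  rw [adD_apply] at h
  rw [h, neg_zero]

theorem scale_pair [IsAlgClosed k] (C : Core 𝒜 br) {f₁ f₂ : R →ₐ[ℂ] k[X]}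
    (hf₁ : IsCurve 𝒜 k 1 f₁) (hf₂ : IsCurve 𝒜 k 1 f₂)
    (h0 : ∀ r, (f₁ r).coeff 0 = (f₂ r).coeff 0)
    (hgen : ∀ d, ∀ a ∈ 𝒜 d, (f₁ a).coeff 0 = 0 → a = 0) {L₀ : List (R × k)}
    (hL₀ : ∀ r, (f₂ r).coeff 1 = (L₀.map fun q => q.2 * (f₁ (br q.1 r)).coeff 0).sum)
    (hne : (L₀.map fun q => q.2 * (f₁ q.1).coeff 1).sum ≠ 0) :
    ∃ (K : Type) (_ : Field K) (_ : Algebra ℂ K) (_ : IsAlgClosed K) (F₁ F₂ : R →ₐ[ℂ] K[X])
      (L : List (R × K)), IsCurve 𝒜 K 1 F₁ ∧ IsCurve 𝒜 K 1 F₂ ∧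
      (∀ r, (F₁ r).coeff 0 = (F₂ r).coeff 0) ∧
      (Function.Injective fun r => (F₁ r).coeff 0) ∧
      (∀ r, (F₂ r).coeff 1 = (L.map fun q => q.2 * (F₁ (br q.1 r)).coeff 0).sum) ∧
      (L.map fun q => q.2 * (F₁ q.1).coeff 1).sum ≠ 0 := by
  let F : Type := FractionRing k[X]
  let K : Type := AlgebraicClosure F
  let ι : k[X] →ₐ[ℂ] K :=
    (IsScalarTower.toAlgHom ℂ F K).comp (IsScalarTower.toAlgHom ℂ k[X] F)
  have hι : Function.Injective ι := by
    change Function.Injective ((algebraMap F K) ∘ (algebraMap k[X] F))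
    exact (algebraMap F K).injective.comp (IsFractionRing.injective k[X] F)
  let j : k →ₐ[ℂ] K := ι.comp (IsScalarTower.toAlgHom ℂ k k[X])
  have hj : ∀ c, ι (Polynomial.C c) = j c := fun c => rfl
  let lam : K := ι X
  have hl : lam ≠ 0 := by
    intro h
    have h1 : ι X = ι 0 := by rw [map_zero]; exact h
    exact Polynomial.X_ne_zero (hι h1)
  let g₁ : R →ₐ[ℂ] K[X] := mapC j f₁
  let g₂ : R →ₐ[ℂ] K[X] := mapC j f₂
  have hg₁ : IsCurve 𝒜 K 1 g₁ := Pool.Agent.Helper54.DT.map_curve j hf₁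
  have hg₂ : IsCurve 𝒜 K 1 g₂ := Pool.Agent.Helper54.DT.map_curve j hf₂
  have hc₁ : ∀ r i, (g₁ r).coeff i = j ((f₁ r).coeff i) :=
    fun r i => Pool.Agent.Helper54.DT.coeff_mapC j f₁ r i
  have hc₂ : ∀ r i, (g₂ r).coeff i = j ((f₂ r).coeff i) :=
    fun r i => Pool.Agent.Helper54.DT.coeff_mapC j f₂ r i
  obtain ⟨L₁, hL₁, hφ⟩ := homl 𝒜 L₀
  -- the two sums
  have hs1 : ∀ r, (f₂ r).coeff 1 = (L₁.map fun q => q.2.2 * (f₁ (br q.2.1 r)).coeff 0).sum := by
    intro r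
    rw [hL₀]
    have := hφ (((Polynomial.lcoeff k 0).restrictScalars ℂ).comp
      (f₁.toLinearMap.comp (br.flip r)))
    simpa using this
  have hs2 : (L₀.map fun q => q.2 * (f₁ q.1).coeff 1).sum =
      (L₁.map fun q => q.2.2 * (f₁ q.2.1).coeff 1).sum := by
    have := hφ (((Polynomial.lcoeff k 1).restrictScalars ℂ).comp f₁.toLinearMap)
    simpa using this
  refine ⟨K, inferInstance, inferInstance, inferInstance, sc 𝒜 lam g₁, sc 𝒜 lam g₂,
    L₁.map fun q => (q.2.1, lam ^ ((1 : ℤ) - q.1) * j q.2.2), sc_curve hl hg₁, sc_curve hl hg₂,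
    ?_, ?_, ?_, ?_⟩
  · intro r
    refine hom_induction 𝒜 (P := fun r => (sc 𝒜 lam g₁ r).coeff 0 = (sc 𝒜 lam g₂ r).coeff 0) r
      (by simp) ?_ ?_
    · intro d a ha
      rw [coeff_sc_mem lam g₁ ha, coeff_sc_mem lam g₂ ha, hc₁, hc₂, h0]
    · intro a b ha hb
      rw [map_add, map_add, coeff_add, coeff_add, ha, hb]
  · -- injective
    let x : R →ₐ[ℂ] k := (ev0 k).comp f₁
    have hx : ∀ r, x r = (f₁ r).coeff 0 := by
      intro r
      change Polynomial.aeval (0 : k) (f₁ r) = _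
      rw [Polynomial.coeff_zero_eq_eval_zero]
      rfl
    let P : R →ₐ[ℂ] k[X] := (Polynomial.mapAlgHom x).comp (gr 𝒜)
    have hP : ∀ r, (sc 𝒜 lam g₁ r).coeff 0 = ι (P r) := by
      intro r
      refine hom_induction 𝒜 (P := fun r => (sc 𝒜 lam g₁ r).coeff 0 = ι (P r)) r (by simp) ?_ ?_
      · intro d a ha
        rw [coeff_sc_mem lam g₁ ha, hc₁]
        have e1 : P a = Polynomial.C (x a) * X ^ d := by
          change Polynomial.map _ (gr 𝒜 a) = _
          rw [gr_of_mem 𝒜 ha, Polynomial.map_mul, Polynomial.map_C, Polynomial.map_pow,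
            Polynomial.map_X]
          rfl
        rw [e1, map_mul, map_pow, hj, hx, mul_comm]
      · intro a b ha hb
        rw [map_add, map_add, map_add, coeff_add, ha, hb]
    have hPc : ∀ r d, (P r).coeff d = x (pr 𝒜 d r) := by
      intro r d
      change (Polynomial.map _ (gr 𝒜 r)).coeff d = _
      rw [Polynomial.coeff_map, coeff_gr]
      rfl
    intro r s hrs
    have h1 : ι (P r) = ι (P s) := by
      rw [← hP, ← hP]; exact hrs
    have h2 : P (r - s) = 0 := by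
      rw [map_sub, hι h1, sub_self]
    have h3 : r - s = 0 := by
      apply ext_pr 𝒜
      intro d
      rw [map_zero]
      apply hgen d _ (pr_mem 𝒜 d _)
      rw [← hx, ← hPc, h2, coeff_zero]
    exact sub_eq_zero.1 h3
  · intro r
    refine hom_induction 𝒜 (P := fun r => (sc 𝒜 lam g₂ r).coeff 1 =
      ((L₁.map fun q => (q.2.1, lam ^ ((1 : ℤ) - q.1) * j q.2.2)).map
        fun q => q.2 * (sc 𝒜 lam g₁ (br q.1 r)).coeff 0).sum) r ?_ ?_ ?_
    · rw [map_zero, coeff_zero]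
      symm
      apply List.sum_eq_zero
      intro y hy
      obtain ⟨q, _, rfl⟩ := List.mem_map.1 hy
      simp
    · intro d a ha
      rw [coeff_sc_mem lam g₂ ha, hc₂, hs1, map_list_sum, List.map_map, List.map_map,
        ← List.sum_map_mul_left]
      congr 1
      apply List.map_congr_left
      intro q hq
      simp only [Function.comp]
      rcases Nat.eq_zero_or_pos q.1 with hq0 | hq0
      · have hb : br q.2.1 a = 0 := br_const C (by have := hL₁ q hq; rwa [hq0] at this) a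
        rw [hb]
        simp
      · obtain ⟨e, he⟩ := Nat.exists_eq_add_of_lt hq0
        have hmem : br q.2.1 a ∈ 𝒜 (e + d) :=
          C.degree q.1 d _ (hL₁ q hq) a ha (e + d) (by omega)
        rw [coeff_sc_mem lam g₁ hmem, hc₁, map_mul]
        have hz : lam ^ ((1 : ℤ) - q.1) * lam ^ (e + d) = lam ^ d := by
          rw [← zpow_natCast, ← zpow_natCast, ← zpow_add₀ hl]
          congr 1
          rw [he]; push_cast; ring
        calc lam ^ d * (j q.2.2 * j ((f₁ (br q.2.1 a)).coeff 0))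
            = (lam ^ ((1 : ℤ) - q.1) * lam ^ (e + d)) *
                (j q.2.2 * j ((f₁ (br q.2.1 a)).coeff 0)) := by rw [hz]
          _ = _ := by ring
    · intro a b ha hb
      rw [map_add, coeff_add, ha, hb, ← List.sum_map_add]
      congr 1
      apply List.map_congr_left
      intro q hq
      rw [map_add, map_add, coeff_add, mul_add]
  · rw [List.map_map]
    have e1 : (L₁.map ((fun q : R × K => q.2 * (sc 𝒜 lam g₁ q.1).coeff 1) ∘
        fun q : ℕ × R × k => (q.2.1, lam ^ ((1 : ℤ) - q.1) * j q.2.2))) =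
        L₁.map fun q => lam * j (q.2.2 * (f₁ q.2.1).coeff 1) := by
      apply List.map_congr_left
      intro q hq
      simp only [Function.comp]
      rw [coeff_sc_mem lam g₁ (hL₁ q hq), hc₁, map_mul]
      have hz : lam ^ ((1 : ℤ) - q.1) * lam ^ q.1 = lam := by
        rw [← zpow_natCast, ← zpow_add₀ hl]
        simp
      calc lam ^ ((1 : ℤ) - q.1) * j q.2.2 * (lam ^ q.1 * j ((f₁ q.2.1).coeff 1))
          = (lam ^ ((1 : ℤ) - q.1) * lam ^ q.1) * (j q.2.2 * j ((f₁ q.2.1).coeff 1)) := by ring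
        _ = _ := by rw [hz]
    rw [e1, List.sum_map_mul_left]
    apply mul_ne_zero hl
    have e2 : (L₁.map fun q => j (q.2.2 * (f₁ q.2.1).coeff 1)).sum =
        j (L₁.map fun q => q.2.2 * (f₁ q.2.1).coeff 1).sum := by
      rw [map_list_sum, List.map_map]
      rfl
    rw [e2, ← hs2]
    intro h
    exact hne ((map_eq_zero j).1 h)

end Pool.Agent.Helper60.DT.SC
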